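import Mathlib

/-!
# Super-rigidity of the random monster group with respect to `Out(A_Λ)`

`Ω` is a sequence of finite connected `d`-regular graphs (`d ≥ 3`), `F_k` the free group on `k`
letters, `T = {x_i, x_i⁻¹}`, and `Γ_α` the quotient of `F_k` by all words read along closed paths
of the graphs, for a random symmetric labelling `α` of the oriented edges by elements of `T ^ j`.
-/

set_option autoImplicit false

open scoped Pointwise
open MeasureTheory Filter

namespace Pool.Agent.MPaf453c

universe u v

/-- The symmetric generating set `T = {x_i, x_i⁻¹}` of the free group `F_k`. -/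
def gens (k : ℕ) : Set (FreeGroup (Fin k)) :=
  {t | ∃ i : Fin k, t = FreeGroup.of i ∨ t = (FreeGroup.of i)⁻¹}

/-- Symmetric labellings of the oriented edges (darts) of the graph `X` by elements of `T ^ j`,
the set of products of `j` elements of `T`. -/
def Labelling {V : Type u} (X : SimpleGraph V) (k j : ℕ) : Type u :=
  {α : X.Dart → FreeGroup (Fin k) // (∀ e, α e ∈ gens k ^ j) ∧ ∀ e, α e.symm = (α e)⁻¹}

/-- The set of labellings of a finite graph is finite; it carries the discrete sigma-algebra. -/
instance {V : Type u} (X : SimpleGraph V) (k j : ℕ) : MeasurableSpace (Labelling X k j) := ⊤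

/-- The word (an element of `F_k`) read along a path. -/
def word {V : Type u} {X : SimpleGraph V} {k j : ℕ} (α : Labelling X k j) {x y : V}
    (p : X.Walk x y) : FreeGroup (Fin k) :=
  (p.darts.map α.1).prod

/-- The set of words read along closed paths in the disjoint union of the graphs `Ω n`. -/
def relators {V : ℕ → Type u} (Ω : ∀ n, SimpleGraph (V n)) {k j : ℕ}
    (α : ∀ n, Labelling (Ω n) k j) : Set (FreeGroup (Fin k)) :=
  {r | ∃ (n : ℕ) (x : V n) (p : (Ω n).Walk x x), r = word (α n) p}

/-- The group `Γ_α`: the quotient of `F_k` by the normal closure of the words read along closed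
paths. -/
abbrev Monster {V : ℕ → Type u} (Ω : ∀ n, SimpleGraph (V n)) {k j : ℕ}
    (α : ∀ n, Labelling (Ω n) k j) : Type :=
  FreeGroup (Fin k) ⧸ Subgroup.normalClosure (relators Ω α)

/-- The product of the uniform distributions on the finite sets of labellings of the `Ω n`. -/
noncomputable def labMeasure {V : ℕ → Type u} (Ω : ∀ n, SimpleGraph (V n)) (k j : ℕ) :
    Measure (∀ n, Labelling (Ω n) k j) :=
  Measure.infinitePi (fun n => ProbabilityTheory.uniformOn (Set.univ : Set (Labelling (Ω n) k j)))

/-- Super-rigidity with respect to `G`: for every choice of homomorphisms `φ_α : Γ_α → G` the image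
is finite for almost every `α`. -/
def SuperRigid {V : ℕ → Type u} (Ω : ∀ n, SimpleGraph (V n)) (k j : ℕ) (G : Type v) [Group G] :
    Prop :=
  ∀ φ : (∀ α : (∀ n, Labelling (Ω n) k j), Monster Ω α →* G),
    ∀ᵐ α ∂(labMeasure Ω k j), Finite (φ α).range

/-- The right-angled Artin group of the graph `Λ`. -/
abbrev RAAG {W : Type v} (Λ : SimpleGraph W) : Type v :=
  PresentedGroup {r : FreeGroup W | ∃ x y : W, Λ.Adj x y ∧
    r = FreeGroup.of x * FreeGroup.of y * (FreeGroup.of x)⁻¹ * (FreeGroup.of y)⁻¹}

/-- Inner automorphisms form a normal subgroup. -/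
instance conj_range_normal (G : Type v) [Group G] :
    ((MulAut.conj : G →* MulAut G).range).Normal := by
  constructor
  rintro _ ⟨g, rfl⟩ a
  refine ⟨a g, ?_⟩
  ext x
  simp [MulAut.conj_apply]

/-- The outer automorphism group. -/
abbrev Out (G : Type v) [Group G] : Type v := MulAut G ⧸ (MulAut.conj : G →* MulAut G).range

end Pool.Agent.MPaf453c
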