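import Mathlib
import Pool.Agent.Lib.MP_af453c_al.Defs

set_option autoImplicit false

open scoped Pointwise
open MeasureTheory Filter

namespace Pool.Agent.MPaf453c

universe u v

/-! ### Finiteness and countability -/

theorem gens_finite (k : ℕ) : (gens k).Finite := by
  have : gens k ⊆ Set.range (fun i : Fin k => FreeGroup.of i) ∪
      Set.range (fun i : Fin k => (FreeGroup.of i)⁻¹) := by
    rintro t ⟨i, rfl | rfl⟩
    · exact Or.inl ⟨i, rfl⟩
    · exact Or.inr ⟨i, rfl⟩
  exact Set.Finite.subset (Set.Finite.union (Set.finite_range _) (Set.finite_range _)) this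

theorem gens_inv {k : ℕ} {t : FreeGroup (Fin k)} (h : t ∈ gens k) : t⁻¹ ∈ gens k := by
  obtain ⟨i, rfl | rfl⟩ := h
  · exact ⟨i, Or.inr rfl⟩
  · exact ⟨i, Or.inl (inv_inv _)⟩

theorem gens_pow_finite (k j : ℕ) : (gens k ^ j).Finite := by
  induction j with
  | zero => rw [pow_zero]; exact Set.finite_one
  | succ j ih => rw [pow_succ]; exact Set.Finite.mul ih (gens_finite k)

theorem gens_pow_inv (k j : ℕ) : ∀ t ∈ gens k ^ j, t⁻¹ ∈ gens k ^ j := by
  have h1 : (gens k)⁻¹ = gens k := by
    ext t
    rw [Set.mem_inv]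
    exact ⟨fun h => by simpa using gens_inv h, fun h => gens_inv h⟩
  intro t ht
  have h2 : (gens k ^ j)⁻¹ = gens k ^ j := by rw [← inv_pow, h1]
  rw [← h2, Set.mem_inv, inv_inv]
  exact ht

instance {V : Type u} [Finite V] (X : SimpleGraph V) : Finite X.Dart :=
  Finite.of_injective (fun e : X.Dart => e.toProd) (fun _ _ h => SimpleGraph.Dart.ext _ _ h)

instance {V : Type u} [Finite V] (X : SimpleGraph V) (k j : ℕ) : Finite (Labelling X k j) := by
  have : Finite ↥(gens k ^ j) := (gens_pow_finite k j).to_subtype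
  refine Finite.of_injective (β := X.Dart → ↥(gens k ^ j)) (fun α e => ⟨α.1 e, α.2.1 e⟩) ?_
  intro α β h
  refine Subtype.ext (funext fun e => ?_)
  exact congrArg Subtype.val (congrFun h e)

instance {V : Type u} (X : SimpleGraph V) (k j : ℕ) : MeasurableSingletonClass (Labelling X k j) :=
  ⟨fun _ => trivial⟩

open Classical in
/-- Change the label of one oriented edge. -/
noncomputable def upd {V : Type u} {X : SimpleGraph V} {k j : ℕ} (α : Labelling X k j) (e : X.Dart)
    (s : FreeGroup (Fin k)) (hs : s ∈ gens k ^ j) : Labelling X k j :=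
  ⟨fun e' => if e' = e then s else if e' = e.symm then s⁻¹ else α.1 e', by
    constructor
    · intro e'
      dsimp only
      split_ifs
      · exact hs
      · exact gens_pow_inv k j s hs
      · exact α.2.1 e'
    · intro e'
      have hne : e.symm ≠ e := e.symm_ne
      dsimp only
      by_cases h1 : e' = e
      · subst h1
        rw [if_neg hne, if_pos rfl, if_pos rfl]
      · by_cases h2 : e' = e.symm
        · subst h2
          rw [if_pos (SimpleGraph.Dart.symm_symm e), if_neg hne, if_pos rfl, inv_inv]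
        · have h3 : e'.symm ≠ e := fun h => h2 (by rw [← h, SimpleGraph.Dart.symm_symm])
          have h4 : e'.symm ≠ e.symm := fun h => h1 (by
            have := congrArg SimpleGraph.Dart.symm h
            simpa using this)
          rw [if_neg h3, if_neg h4, if_neg h1, if_neg h2]
          exact α.2.2 e'⟩

theorem upd_self {V : Type u} {X : SimpleGraph V} {k j : ℕ} (α : Labelling X k j) (e : X.Dart)
    (s : FreeGroup (Fin k)) (hs : s ∈ gens k ^ j) : (upd α e s hs).1 e = s := by
  simp [upd]

theorem upd_of_ne {V : Type u} {X : SimpleGraph V} {k j : ℕ} (α : Labelling X k j) (e : X.Dart)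
    (s : FreeGroup (Fin k)) (hs : s ∈ gens k ^ j) (e' : X.Dart) (h1 : e' ≠ e) (h2 : e' ≠ e.symm) :
    (upd α e s hs).1 e' = α.1 e' := by
  simp [upd, h1, h2]

theorem upd_upd {V : Type u} {X : SimpleGraph V} {k j : ℕ} (α : Labelling X k j) (e : X.Dart)
    (s : FreeGroup (Fin k)) (hs : s ∈ gens k ^ j) : upd (upd α e s hs) e (α.1 e) (α.2.1 e) = α := by
  refine Subtype.ext (funext fun e' => ?_)
  by_cases h1 : e' = e
  · subst h1; rw [upd_self]
  · by_cases h2 : e' = e.symm
    · subst h2
      rw [(upd (upd α e s hs) e (α.1 e) (α.2.1 e)).2.2, upd_self, α.2.2]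
    · rw [upd_of_ne _ _ _ _ _ h1 h2, upd_of_ne _ _ _ _ _ h1 h2]

/-- The set of labellings of one graph killed by a homomorphism of `F_k`. -/
def Bad {V : Type u} (X : SimpleGraph V) (k j : ℕ) {G : Type v} [Group G]
    (θ : FreeGroup (Fin k) →* G) : Set (Labelling X k j) :=
  {α | ∀ (x : V) (p : X.Walk x x), θ (word α p) = 1}

theorem card_bad {V : Type u} [Finite V] (X : SimpleGraph V) (k j : ℕ) {G : Type v} [Group G]
    (θ : FreeGroup (Fin k) →* G) (hcyc : ¬ X.IsAcyclic)
    (hθ : ∀ c : G, ∃ s ∈ gens k ^ j, θ s ≠ c) :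
    Nat.card (Bad X k j θ) ≤ Nat.card ↥(gens k ^ j) * Nat.card ↥(Bad X k j θ)ᶜ := by
  -- a cycle and its first oriented edge
  unfold SimpleGraph.IsAcyclic at hcyc
  push Not at hcyc
  obtain ⟨x, c, hc⟩ := hcyc
  cases c with
  | nil => exact absurd hc (by simp)
  | @cons _ y _ hadj p =>
    rw [SimpleGraph.Walk.cons_isCycle_iff] at hc
    let e : X.Dart := ⟨(x, y), hadj⟩
    have hword : ∀ β : Labelling X k j,
        word β (SimpleGraph.Walk.cons hadj p) = β.1 e * word β p := by
      intro β
      simp [word, e]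
    have hword2 : ∀ (β : Labelling X k j) (s : FreeGroup (Fin k)) (hs : s ∈ gens k ^ j),
        word (upd β e s hs) p = word β p := by
      intro β s hs
      unfold word
      congr 1
      refine List.map_congr_left fun e' he' => ?_
      have h1 : e'.edge ∈ p.edges := List.mem_map.2 ⟨e', he', rfl⟩
      refine upd_of_ne _ _ _ _ _ ?_ ?_
      · rintro rfl
        exact hc.2 h1
      · rintro rfl
        rw [SimpleGraph.Dart.edge_symm] at h1
        exact hc.2 h1
    -- choose a replacement label
    have hrep : ∀ β : Labelling X k j, ∃ s, ∃ hs : s ∈ gens k ^ j, β ∈ Bad X k j θ →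
        upd β e s hs ∈ (Bad X k j θ)ᶜ := by
      intro β
      obtain ⟨s, hs, hne⟩ := hθ (θ (β.1 e))
      refine ⟨s, hs, fun hβ hupd => hne ?_⟩
      have h1 := hβ x (SimpleGraph.Walk.cons hadj p)
      have h2 := hupd x (SimpleGraph.Walk.cons hadj p)
      rw [hword, map_mul] at h1
      rw [hword, map_mul, upd_self, hword2] at h2
      exact mul_right_cancel (h2.trans h1.symm)
    choose r hr hr2 using hrep
    have : Finite ↥(gens k ^ j) := (gens_pow_finite k j).to_subtype
    rw [← Nat.card_prod]
    refine Nat.card_le_card_of_injective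
      (fun β : Bad X k j θ => ((⟨β.1.1 e, β.1.2.1 e⟩ : ↥(gens k ^ j)),
        (⟨upd β.1 e (r β.1) (hr β.1), hr2 β.1 β.2⟩ : ↥(Bad X k j θ)ᶜ))) ?_
    rintro ⟨β, hβ⟩ ⟨γ, hγ⟩ h
    simp only [Prod.mk.injEq, Subtype.mk.injEq] at h
    obtain ⟨h1, h2⟩ := h
    refine Subtype.ext ?_
    change β = γ
    rw [← upd_upd β e (r β) (hr β), ← upd_upd γ e (r γ) (hr γ)]
    simp only [h1, h2]

/-- A finite connected `d`-regular graph with `d ≥ 2` contains a cycle. -/
theorem not_acyclic {V : Type u} [Fintype V] (X : SimpleGraph V) [DecidableRel X.Adj] (d : ℕ)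
    (hd : 2 ≤ d) (hconn : X.Connected) (hreg : X.IsRegularOfDegree d) : ¬ X.IsAcyclic := by
  intro hac
  have htree : X.IsTree := ⟨hconn, hac⟩
  have h1 := htree.card_edgeFinset
  have h2 := X.sum_degrees_eq_twice_card_edges
  have h3 : ∑ x, X.degree x = Fintype.card V * d := by
    rw [Finset.sum_congr rfl (fun x _ => hreg.degree_eq x)]
    simp
  rw [h3] at h2
  nlinarith

open Classical in
theorem uniform_bad {V : Type u} [Finite V] (X : SimpleGraph V) (k j : ℕ) {G : Type v} [Group G]
    (θ : FreeGroup (Fin k) →* G) (hcyc : ¬ X.IsAcyclic)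
    (hθ : ∀ c : G, ∃ s ∈ gens k ^ j, θ s ≠ c) [Nonempty (Labelling X k j)] :
    ProbabilityTheory.uniformOn (Set.univ : Set (Labelling X k j)) (Bad X k j θ) ≤
      (Nat.card ↥(gens k ^ j) : ENNReal) / (Nat.card ↥(gens k ^ j) + 1 : ENNReal) := by
  have := Fintype.ofFinite (Labelling X k j)
  rw [ProbabilityTheory.uniformOn_univ]
  have h1 := card_bad X k j θ hcyc hθ
  have h2 : Nat.card ↥(Bad X k j θ) + Nat.card ↥(Bad X k j θ)ᶜ = Fintype.card (Labelling X k j) := by
    rw [← Nat.card_sum, ← Nat.card_eq_fintype_card]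
    exact Nat.card_congr (Equiv.Set.sumCompl _)
  have h3 : Measure.count (Bad X k j θ) = (Nat.card ↥(Bad X k j θ) : ENNReal) := by
    have hm : MeasurableSet (Bad X k j θ) := trivial
    rw [Measure.count_apply_finite' (Set.toFinite _) hm, Nat.card_coe_set_eq,
      Set.ncard_eq_toFinset_card _ (Set.toFinite _)]
  rw [h3]
  have hpos : 0 < Fintype.card (Labelling X k j) := Fintype.card_pos
  set N := Nat.card ↥(gens k ^ j)
  set b := Nat.card ↥(Bad X k j θ)
  set b' := Nat.card ↥(Bad X k j θ)ᶜ
  set L := Fintype.card (Labelling X k j)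
  rw [ENNReal.div_le_iff (by exact_mod_cast hpos.ne') (ENNReal.natCast_ne_top L),
    div_eq_mul_inv, mul_right_comm, ← div_eq_mul_inv,
    ENNReal.le_div_iff_mul_le (Or.inl (by positivity)) (Or.inl (by finiteness))]
  have h4 : b * (N + 1) ≤ N * L := by
    rw [← h2]
    nlinarith
  exact_mod_cast h4

/-- If `θ` is constant on `T ^ j`, `j ≥ 1`, then the image of `θ` is finite. -/
theorem finite_range_of_const {k j : ℕ} (hj : 1 ≤ j) {G : Type v} [Group G]
    (θ : FreeGroup (Fin k) →* G) (c : G) (hc : ∀ s ∈ gens k ^ j, θ s = c) : Finite θ.range := by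
  rcases Nat.eq_zero_or_pos k with rfl | hk
  · have : Finite (FreeGroup (Fin 0)) := inferInstance
    exact Finite.of_surjective θ.rangeRestrict θ.rangeRestrict_surjective
  · -- all generators and their inverses have the same image
    have hne : FreeGroup.of (⟨0, hk⟩ : Fin k) ∈ gens k := ⟨_, Or.inl rfl⟩
    obtain ⟨i, rfl⟩ : ∃ i, j = i + 1 := ⟨j - 1, by omega⟩
    have hpow : FreeGroup.of (⟨0, hk⟩ : Fin k) ^ i ∈ gens k ^ i := Set.pow_mem_pow hne
    have hgen : ∀ t ∈ gens k, θ t = θ (FreeGroup.of (⟨0, hk⟩ : Fin k)) := by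
      intro t ht
      have h1 := hc (FreeGroup.of (⟨0, hk⟩ : Fin k) ^ i * t) (by
        rw [pow_succ]; exact Set.mul_mem_mul hpow ht)
      have h2 := hc (FreeGroup.of (⟨0, hk⟩ : Fin k) ^ i * FreeGroup.of (⟨0, hk⟩ : Fin k)) (by
        rw [pow_succ]; exact Set.mul_mem_mul hpow hne)
      rw [map_mul] at h1 h2
      exact mul_left_cancel (h1.trans h2.symm)
    set g := θ (FreeGroup.of (⟨0, hk⟩ : Fin k)) with hg
    have hinv : g⁻¹ = g := by
      have := hgen _ (gens_inv hne)
      rwa [map_inv] at this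
    have hsub : θ.range ≤ Subgroup.zpowers g := by
      rintro _ ⟨w, rfl⟩
      induction w using FreeGroup.induction_on with
      | C1 => rw [map_one]; exact Subgroup.one_mem _
      | of x =>
        rw [hgen _ ⟨x, Or.inl rfl⟩]
        exact Subgroup.mem_zpowers g
      | inv_of x _ =>
        rw [hgen _ ⟨x, Or.inr rfl⟩]
        exact Subgroup.mem_zpowers g
      | mul x y hx hy => rw [map_mul]; exact Subgroup.mul_mem _ hx hy
    have hfo : IsOfFinOrder g := by
      rw [isOfFinOrder_iff_pow_eq_one]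
      refine ⟨2, by norm_num, ?_⟩
      rw [pow_two]
      nth_rewrite 1 [← hinv]
      exact inv_mul_cancel g
    have hfin : Finite (Subgroup.zpowers g) := finite_zpowers.2 hfo
    exact Finite.of_injective (Subgroup.inclusion hsub) (Subgroup.inclusion_injective hsub)

open Classical in
/-- A labelling exists when `k ≥ 1`. -/
theorem nonempty_labelling {V : Type u} (X : SimpleGraph V) (k j : ℕ) (hk : 0 < k) :
    Nonempty (Labelling X k j) := by
  have hne : FreeGroup.of (⟨0, hk⟩ : Fin k) ∈ gens k := ⟨_, Or.inl rfl⟩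
  have hpow : FreeGroup.of (⟨0, hk⟩ : Fin k) ^ j ∈ gens k ^ j := Set.pow_mem_pow hne
  set s := FreeGroup.of (⟨0, hk⟩ : Fin k) ^ j
  obtain ⟨r, hr⟩ : ∃ r : V → V → Prop, IsWellOrder V r := ⟨WellOrderingRel, inferInstance⟩
  refine ⟨⟨fun e => if r e.fst e.snd then s else s⁻¹, ?_, ?_⟩⟩
  · intro e
    dsimp only
    split_ifs
    · exact hpow
    · exact gens_pow_inv k j s hpow
  · intro e
    have hne : e.fst ≠ e.snd := e.adj.ne
    dsimp only
    rw [show e.symm.fst = e.snd from rfl, show e.symm.snd = e.fst from rfl]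
    by_cases h : r e.fst e.snd
    · rw [if_pos h, if_neg (asymm h)]
    · have h2 : r e.snd e.fst := by
        rcases trichotomous_of r e.fst e.snd with h3 | h3 | h3
        · exact absurd h3 h
        · exact absurd h3 hne
        · exact h3
      rw [if_neg h, if_pos h2, inv_inv]

/-- For `k ≥ 1` the measure on the set of labellings is a probability measure. -/
theorem isProbabilityMeasure_labMeasure {V : ℕ → Type u} [∀ n, Finite (V n)]
    (Ω : ∀ n, SimpleGraph (V n)) (k j : ℕ) (hk : 0 < k) :
    IsProbabilityMeasure (labMeasure Ω k j) := by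
  have hnon : ∀ n, Nonempty (Labelling (Ω n) k j) := fun n => nonempty_labelling (Ω n) k j hk
  unfold labMeasure
  infer_instance

/-- The main point: for one fixed homomorphism with infinite image, almost no labelling is killed. -/
theorem measure_killed {V : ℕ → Type u} [∀ n, Finite (V n)] (Ω : ∀ n, SimpleGraph (V n))
    (k j : ℕ) (hj : 1 ≤ j) (hcyc : ∀ n, ¬ (Ω n).IsAcyclic) {G : Type v} [Group G]
    (θ : FreeGroup (Fin k) →* G) (hθ : ¬ Finite θ.range) :
    labMeasure Ω k j {α | ∀ n, α n ∈ Bad (Ω n) k j θ} = 0 := by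
  have hk : 0 < k := by
    rcases Nat.eq_zero_or_pos k with rfl | hk
    · exact absurd (finite_range_of_const hj θ 1 (fun s _ => by
        rw [Subsingleton.elim s 1, map_one])) hθ
    · exact hk
  have hnon : ∀ n, Nonempty (Labelling (Ω n) k j) := fun n => nonempty_labelling (Ω n) k j hk
  have hθ' : ∀ c : G, ∃ s ∈ gens k ^ j, θ s ≠ c := by
    intro c
    by_contra hcon
    push Not at hcon
    exact hθ (finite_range_of_const hj θ c hcon)
  set q : ENNReal := (Nat.card ↥(gens k ^ j) : ENNReal) / (Nat.card ↥(gens k ^ j) + 1 : ENNReal)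
    with hq
  have hq1 : q < 1 := by
    rw [hq, ENNReal.div_lt_iff (Or.inl (by positivity)) (Or.inl (by finiteness)), one_mul]
    exact_mod_cast Nat.lt_succ_self _
  have hbound : ∀ m : ℕ, labMeasure Ω k j {α | ∀ n, α n ∈ Bad (Ω n) k j θ} ≤ q ^ m := by
    intro m
    calc labMeasure Ω k j {α | ∀ n, α n ∈ Bad (Ω n) k j θ}
        ≤ labMeasure Ω k j (Set.pi (Finset.range m) (fun n => Bad (Ω n) k j θ)) := by
          refine measure_mono ?_
          intro α hα n _
          exact hα n
      _ = ∏ n ∈ Finset.range m, ProbabilityTheory.uniformOn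
            (Set.univ : Set (Labelling (Ω n) k j)) (Bad (Ω n) k j θ) := by
          rw [labMeasure, Measure.infinitePi_pi]
          intro i _
          trivial
      _ ≤ ∏ n ∈ Finset.range m, q :=
          Finset.prod_le_prod' fun n _ => uniform_bad (Ω n) k j θ (hcyc n) hθ'
      _ = q ^ m := by simp
  have hlim : Tendsto (fun m : ℕ => q ^ m) atTop (nhds 0) :=
    ENNReal.tendsto_pow_atTop_nhds_zero_of_lt_one hq1
  exact le_antisymm (ge_of_tendsto' hlim hbound) zero_le

/-- Super-rigidity with respect to every countable group. -/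
theorem superRigid_of_countable {V : ℕ → Type u} [∀ n, Finite (V n)] (Ω : ∀ n, SimpleGraph (V n))
    (k j : ℕ) (hj : 1 ≤ j) (hcyc : ∀ n, ¬ (Ω n).IsAcyclic) (G : Type v) [Group G] [Countable G] :
    SuperRigid Ω k j G := by
  intro φ
  have hcount : Countable (FreeGroup (Fin k) →* G) :=
    (FreeGroup.lift (α := Fin k) (β := G)).symm.injective.countable
  have h1 : ∀ᵐ α ∂(labMeasure Ω k j), ∀ θ : FreeGroup (Fin k) →* G,
      (∀ n, α n ∈ Bad (Ω n) k j θ) → Finite θ.range := by
    rw [ae_all_iff]
    intro θ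
    by_cases hfin : Finite θ.range
    · exact Filter.Eventually.of_forall fun _ _ => hfin
    · have h2 := measure_killed Ω k j hj hcyc θ hfin
      rw [ae_iff]
      refine measure_mono_null ?_ h2
      intro α hα
      simp only [Set.mem_ofPred_eq, Classical.not_imp] at hα
      exact hα.1
  filter_upwards [h1] with α hα
  have h3 := hα ((φ α).comp (QuotientGroup.mk' _)) (by
    intro n x p
    have h4 : word (α n) p ∈ Subgroup.normalClosure (relators Ω α) :=
      Subgroup.subset_normalClosure ⟨n, x, p, rfl⟩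
    rw [MonoidHom.comp_apply]
    have h5 : (QuotientGroup.mk' (Subgroup.normalClosure (relators Ω α))) (word (α n) p) = 1 :=
      (QuotientGroup.eq_one_iff _).2 h4
    rw [h5, map_one])
  have h6 : ((φ α).comp (QuotientGroup.mk' (Subgroup.normalClosure (relators Ω α)))).range =
      (φ α).range := by
    rw [MonoidHom.range_comp, QuotientGroup.range_mk', ← MonoidHom.range_eq_map]
  rw [h6] at h3
  exact h3

theorem countable_out {W : Type v} [Finite W] (Λ : SimpleGraph W) : Countable (Out (RAAG Λ)) := by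
  have h1 : Countable (RAAG Λ) := (QuotientGroup.mk'_surjective (G := FreeGroup W) _).countable
  have h2 : Countable (MulAut (RAAG Λ)) := by
    refine Function.Injective.countable (β := W → RAAG Λ)
      (f := fun a w => a (PresentedGroup.of w)) ?_
    intro a b hab
    have : (a : RAAG Λ →* RAAG Λ) = (b : RAAG Λ →* RAAG Λ) := PresentedGroup.ext (fun w =>
      congrFun hab w)
    exact MulEquiv.toMonoidHom_injective this
  exact (QuotientGroup.mk'_surjective (MulAut.conj : RAAG Λ →* MulAut (RAAG Λ)).range).countable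

end Pool.Agent.MPaf453c
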